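import Pool.Agent.H94.KneadDefs
import Pool.Agent.H94.KneadProof

set_option autoImplicit false

namespace Pool.Agent.Results.MP_ace4dd_an.NotMonotone

open Set Pool.Agent.H94.KneadDefs

/-- For every `ε > 0` there is a jointly `C¹` family of unimodal maps `G (·) μ`, `μ ∈ (0,2]`, at
`C¹` distance less than `ε` from the quadratic family, whose kneading sequence is neither
non-decreasing nor non-increasing in `μ` for the lexicographic order. -/
theorem result (ε : ℝ) (hε : 0 < ε) :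
    ∃ (G : ℝ → ℝ → ℝ) (c : ℝ → ℝ) (ν : ℝ → ℕ → SignType),
      ContDiff ℝ 1 (fun p : ℝ × ℝ => G p.1 p.2) ∧
      (∀ μ ∈ Ioc (0 : ℝ) 2, Unimodal (fun x => G x μ) (c μ) ∧
        IsKneading (fun x => G x μ) (c μ) (ν μ)) ∧
      (∃ η < ε, ∀ x ∈ Icc (-1 : ℝ) 1, ∀ μ ∈ Ioc (0 : ℝ) 2,
        |G x μ - quad x μ| + |deriv (fun y => G y μ - quad y μ) x|
          + |deriv (fun m => G x m - quad x m) μ| ≤ η) ∧
      ¬ MonotoneOn (fun μ => toLex (ν μ)) (Ioc 0 2) ∧
      ¬ AntitoneOn (fun μ => toLex (ν μ)) (Ioc 0 2) :=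
  Pool.Agent.H94.KneadProof.main ε hε

end Pool.Agent.Results.MP_ace4dd_an.NotMonotone
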